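import Mathlib
import Pool.Agent.helper16.Geproci.Main2
import Pool.Agent.helper16.Geproci.Ideal

set_option autoImplicit false

namespace Pool.Agent.Results.MP_7fd0c9_ag.GeprociLinear

open MvPolynomial Pool.Agent.helper16.Geproci

/-- complex projective three-space -/
abbrev P3 : Type := Projectivization ℂ (Fin 4 → ℂ)

/-- the affine cone in `ℂ⁴` over a set of points -/
def cone (Z : Set P3) : Set (Fin 4 → ℂ) := {x | ∃ z ∈ Z, x ∈ z.submodule}

/-- `Z` is a finite set which is `(a,b)`-geproci: there is a nonzero form `Φ` such that for every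
point `P` with `Φ(P) ≠ 0` and every linear projection `π : ℂ⁴ → ℂ³` with kernel `P`, the ideal of
all polynomials vanishing on the cone over the projected points is generated by a form of degree
`a` and a form of degree `b`. -/
def IsGeproci (a b : ℕ) (Z : Set P3) : Prop :=
  Z.Finite ∧ 1 ≤ a ∧ a ≤ b ∧
    ∃ (d : ℕ) (Φ : MvPolynomial (Fin 4) ℂ), Φ.IsHomogeneous d ∧ Φ ≠ 0 ∧
      ∀ P : Fin 4 → ℂ, eval P Φ ≠ 0 →
        ∀ π : (Fin 4 → ℂ) →ₗ[ℂ] (Fin 3 → ℂ), Function.Surjective π →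
          LinearMap.ker π = Submodule.span ℂ {P} →
            ∃ F G : MvPolynomial (Fin 3) ℂ, F.IsHomogeneous a ∧ G.IsHomogeneous b ∧
              vanishingIdeal ℂ (π '' cone Z) = Ideal.span {F, G}

/-- `Z` does not lie in a plane -/
def Nondegenerate (Z : Set P3) : Prop :=
  ¬ ∃ H : Submodule ℂ (Fin 4 → ℂ), Module.finrank ℂ H = 3 ∧ ∀ z ∈ Z, z.submodule ≤ H

/-- `n` pairwise disjoint lines of projective three-space -/
def SkewLines {n : ℕ} (W : Fin n → Submodule ℂ (Fin 4 → ℂ)) : Prop :=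
  (∀ k, Module.finrank ℂ (W k) = 2) ∧ ∀ j k, j ≠ k → W j ⊓ W k = ⊥

/-- `Z` is contained in `n` skew lines -/
def InSkewLines (n : ℕ) (Z : Set P3) : Prop :=
  ∃ W : Fin n → Submodule ℂ (Fin 4 → ℂ), SkewLines W ∧ ∀ z ∈ Z, ∃ k, z.submodule ≤ W k

/-- `Z` is a grid -/
def IsGrid (Z : Set P3) : Prop :=
  ∃ (m n : ℕ) (A : Fin m → Submodule ℂ (Fin 4 → ℂ)) (B : Fin n → Submodule ℂ (Fin 4 → ℂ)),
    2 ≤ m ∧ m ≤ n ∧ SkewLines A ∧ SkewLines B ∧
    (∀ i j, Module.finrank ℂ (A i ⊓ B j : Submodule ℂ (Fin 4 → ℂ)) = 1) ∧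
    Z = {z | ∃ i j, z.submodule ≤ A i ⊓ B j}

/-- nontrivial: nondegenerate and not a grid -/
def Nontriv (Z : Set P3) : Prop := Nondegenerate Z ∧ ¬ IsGrid Z

/-- the set `S(a)` of the problem -/
def SSet (a : ℕ) : Set ℕ :=
  {b | a ≤ b ∧ ∃ Z : Set P3, IsGeproci a b Z ∧ Nontriv Z ∧ ¬ InSkewLines a Z}

/-- projection from the point `(1 : q)` -/
def prj (q : Fin 3 → ℂ) : (Fin 4 → ℂ) →ₗ[ℂ] (Fin 3 → ℂ) where
  toFun x := Fin.tail x - x 0 • q
  map_add' x y := by
    ext k
    simp [Fin.tail]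
    ring
  map_smul' c x := by
    ext k
    simp [Fin.tail]
    ring

theorem prj_surj (q : Fin 3 → ℂ) : Function.Surjective (prj q) := by
  intro y
  refine ⟨Fin.cons 0 y, ?_⟩
  show Fin.tail (Fin.cons 0 y : Fin 4 → ℂ) - (Fin.cons 0 y : Fin 4 → ℂ) 0 • q = y
  rw [Fin.tail_cons, Fin.cons_zero, zero_smul, sub_zero]

theorem prj_ker (q : Fin 3 → ℂ) :
    LinearMap.ker (prj q) = Submodule.span ℂ {(Fin.cons 1 q : Fin 4 → ℂ)} := by
  ext x
  rw [LinearMap.mem_ker, Submodule.mem_span_singleton]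
  show Fin.tail x - x 0 • q = 0 ↔ _
  constructor
  · intro h
    refine ⟨x 0, ?_⟩
    ext k
    refine Fin.cases ?_ ?_ k
    · simp
    · intro j
      have := congrFun (sub_eq_zero.1 h) j
      simp only [Pi.smul_apply, Fin.cons_succ]
      exact this.symm
  · rintro ⟨t, rfl⟩
    ext k
    simp [Fin.tail]

/-- a linear form vanishing at two given vectors -/
theorem exists_form (u w : Fin 4 → ℂ) : ∃ Λ : Fin 4 → ℂ, Λ ≠ 0 ∧ Λ ⬝ᵥ u = 0 ∧ Λ ⬝ᵥ w = 0 := by
  let A : (Fin 4 → ℂ) →ₗ[ℂ] (ℂ × ℂ) :=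
    { toFun := fun x => (x ⬝ᵥ u, x ⬝ᵥ w)
      map_add' := fun x y => by rw [add_dotProduct, add_dotProduct]; rfl
      map_smul' := fun c x => by rw [smul_dotProduct, smul_dotProduct]; rfl }
  have hker : LinearMap.ker A ≠ ⊥ := by
    apply LinearMap.ker_ne_bot_of_finrank_lt
    simp
  obtain ⟨Λ, h1, h2⟩ := (Submodule.ne_bot_iff _).1 hker
  have h3 : A Λ = 0 := h1
  exact ⟨Λ, h2, congrArg Prod.fst h3, congrArg Prod.snd h3⟩

theorem dot_split (Λ x : Fin 4 → ℂ) : Λ ⬝ᵥ x = Λ 0 * x 0 + Fin.tail Λ ⬝ᵥ Fin.tail x := by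
  simp only [dotProduct, Fin.sum_univ_succ, Fin.tail]

theorem main {a b : ℕ} {Z : Set P3} (h : IsGeproci a b Z) (hnd : Nondegenerate Z)
    (hab : 2 * a ≤ b + 1) (hlt : a < b) : InSkewLines a Z := by
  classical
  obtain ⟨hfin, ha, hab', d, Φ, hΦ, hΦ0, hgp⟩ := h
  have : Fintype Z := hfin.fintype
  set z0 : Z → ℂ := fun z => z.1.rep 0 with hz0
  set zv : Z → Fin 3 → ℂ := fun z => Fin.tail z.1.rep with hzv
  obtain ⟨Φ', hΦ'0, hΦ'⟩ := exists_dehom hΦ hΦ0
  choose Λ hΛ0 hΛ1 hΛ2 using fun ij : Z × Z => exists_form ij.1.1.rep ij.2.1.rep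
  set Ψ : S := ∏ ij : Z × Z, (C (Λ ij 0) + lin (Fin.tail (Λ ij))) with hΨ
  have hΨ0 : Ψ ≠ 0 := by
    refine Finset.prod_ne_zero_iff.2 fun ij _ h0 => hΛ0 ij ?_
    have h1 := congrArg (eval 0) h0
    rw [map_add, eval_C, eval_lin, dotProduct_zero, add_zero, map_zero] at h1
    rw [h1, C_0, zero_add] at h0
    have h2 := lin_eq_zero h0
    ext k
    refine Fin.cases ?_ ?_ k
    · exact h1
    · intro j
      exact congrFun h2 j
  have hrep : ∀ z : Z, (Fin.cons (z0 z) (zv z) : Fin 4 → ℂ) = z.1.rep := by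
    intro z
    exact Fin.cons_self_tail _
  suffices hex : ∃ Ψ', Glob a b z0 zv Ψ' by
    obtain ⟨Ψ', hglob⟩ := hex
    obtain ⟨W, hW1, hW2, hW3⟩ := lines_final hglob
    refine ⟨W, ⟨hW1, hW2⟩, ?_⟩
    intro z hz
    obtain ⟨k, hk⟩ := hW3 ⟨z, hz⟩
    refine ⟨k, ?_⟩
    rw [hrep] at hk
    rw [Projectivization.submodule_eq, Submodule.span_singleton_le_iff_mem]
    exact hk
  refine exists_glob' hab (mul_ne_zero hΦ'0 hΨ0) ?_ ?_
  · intro q hq
    rw [map_mul] at hq
    have hq1 := left_ne_zero_of_mul hq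
    have hq2 := right_ne_zero_of_mul hq
    rw [hΦ'] at hq1
    obtain ⟨F, G, hF, hG, hI⟩ := hgp _ hq1 (prj q) (prj_surj q) (prj_ker q)
    rw [hΨ, map_prod] at hq2
    have hq3 : ∀ ij : Z × Z, Λ ij ⬝ᵥ (Fin.cons 1 q : Fin 4 → ℂ) ≠ 0 := by
      intro ij
      have h1 := (Finset.prod_ne_zero_iff.1 hq2) ij (Finset.mem_univ _)
      rw [map_add, eval_C, eval_lin] at h1
      rw [dot_split, Fin.cons_zero, mul_one, Fin.tail_cons]
      exact h1
    have hdecomp : ∀ z : Z, z.1.rep - z0 z • (Fin.cons 1 q : Fin 4 → ℂ) =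
        Fin.cons 0 (zv z - z0 z • q) := by
      intro z
      ext k
      refine Fin.cases ?_ ?_ k
      · simp [hz0]
      · intro j
        simp [hzv, Fin.tail]
    refine ⟨F, G, CI_of_ideal ha hlt hF hG ?_ ?_ ?_⟩
    · intro H
      rw [← hI, mem_vanishingIdeal_iff]
      constructor
      · intro h1 z t
        have h2 := h1 (t • (zv z - z0 z • q)) ?_
        · rwa [aeval_eq_eval] at h2
        · refine ⟨t • z.1.rep, ⟨z.1, z.2, ?_⟩, ?_⟩
          · rw [Projectivization.submodule_eq]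
            exact Submodule.smul_mem _ _ (Submodule.mem_span_singleton_self _)
          · rw [map_smul]
            rfl
      · rintro h1 _ ⟨x, ⟨z, hz, hx⟩, rfl⟩
        rw [Projectivization.submodule_eq, Submodule.mem_span_singleton] at hx
        obtain ⟨t, rfl⟩ := hx
        rw [map_smul, aeval_eq_eval]
        exact h1 ⟨z, hz⟩ t
    · intro z z' hne hmem
      obtain ⟨c, hc⟩ := Submodule.mem_span_singleton.1 hmem
      have h1 : z.1.rep - c • z'.1.rep = (z0 z - c * z0 z') • (Fin.cons 1 q : Fin 4 → ℂ) := by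
        have e1 := hdecomp z
        have e2 := hdecomp z'
        rw [← hc] at e1
        have e3 : (Fin.cons 0 (c • (zv z' - z0 z' • q)) : Fin 4 → ℂ) =
            c • (Fin.cons 0 (zv z' - z0 z' • q) : Fin 4 → ℂ) := by
          ext k
          refine Fin.cases ?_ ?_ k
          · simp
          · intro j; simp
        rw [e3, ← e2] at e1
        rw [sub_smul, mul_smul]
        rw [smul_sub] at e1
        linear_combination (exp := 1) e1
      have h2 := congrArg (fun x => Λ (z, z') ⬝ᵥ x) h1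
      simp only [dotProduct_sub, dotProduct_smul, smul_eq_mul, hΛ1, hΛ2] at h2
      rw [mul_zero, sub_zero] at h2
      have h3 := (mul_eq_zero.1 h2.symm).resolve_right (hq3 (z, z'))
      rw [h3, zero_smul] at h1
      apply hne
      apply Subtype.ext
      rw [← z.1.mk_rep, ← z'.1.mk_rep, Projectivization.mk_eq_mk_iff']
      exact ⟨c, (sub_eq_zero.1 h1).symm⟩
    · intro z h0
      have e1 := hdecomp z
      rw [h0] at e1
      have e2 : (Fin.cons 0 (0 : Fin 3 → ℂ) : Fin 4 → ℂ) = 0 := by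
        ext k
        refine Fin.cases ?_ ?_ k
        · simp
        · intro j; simp
      rw [e2] at e1
      have h1 := congrArg (fun x => Λ (z, z) ⬝ᵥ x) (sub_eq_zero.1 e1)
      simp only [dotProduct_smul, smul_eq_mul, hΛ1] at h1
      have h3 := (mul_eq_zero.1 h1.symm).resolve_right (hq3 (z, z))
      rw [h3, zero_smul, sub_zero] at e1
      exact z.1.rep_nonzero e1
  · intro c l hcl
    by_contra hcon
    push Not at hcon
    apply hnd
    let A : (Fin 4 → ℂ) →ₗ[ℂ] ℂ :=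
      { toFun := fun x => c * x 0 + l ⬝ᵥ Fin.tail x
        map_add' := fun x y => by
          have : Fin.tail (x + y) = Fin.tail x + Fin.tail y := rfl
          rw [this, dotProduct_add, Pi.add_apply]; ring
        map_smul' := fun t x => by
          have : Fin.tail (t • x) = t • Fin.tail x := rfl
          rw [this, dotProduct_smul, Pi.smul_apply, smul_eq_mul, smul_eq_mul, RingHom.id_apply,
            smul_eq_mul]
          ring }
    have hA : A ≠ 0 := by
      intro h0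
      rcases hcl with h1 | h1
      · apply h1
        have := LinearMap.congr_fun h0 (Fin.cons 1 0 : Fin 4 → ℂ)
        have h2 : c * (Fin.cons 1 0 : Fin 4 → ℂ) 0 + l ⬝ᵥ Fin.tail (Fin.cons 1 0 : Fin 4 → ℂ) = 0 :=
          this
        rwa [Fin.tail_cons, Fin.cons_zero, mul_one, dotProduct_zero, add_zero] at h2
      · apply h1
        ext k
        have := LinearMap.congr_fun h0 (Fin.cons 0 (Pi.single k 1) : Fin 4 → ℂ)
        have h2 : c * (Fin.cons 0 (Pi.single k 1) : Fin 4 → ℂ) 0 +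
            l ⬝ᵥ Fin.tail (Fin.cons 0 (Pi.single k 1) : Fin 4 → ℂ) = 0 := this
        rwa [Fin.tail_cons, Fin.cons_zero, mul_zero, zero_add, dotProduct_single, mul_one] at h2
    have hsurj : Function.Surjective A := LinearMap.surjective hA
    refine ⟨LinearMap.ker A, ?_, ?_⟩
    · have h1 := LinearMap.finrank_range_add_finrank_ker A
      rw [LinearMap.range_eq_top.2 hsurj, finrank_top] at h1
      simp only [Module.finrank_self, Module.finrank_fin_fun] at h1
      omega
    · intro z hz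
      rw [Projectivization.submodule_eq, Submodule.span_singleton_le_iff_mem, LinearMap.mem_ker]
      exact hcon ⟨z, hz⟩

/-- a form of degree one on `ℂ⁴` vanishing on `Z` makes `Z` degenerate -/
theorem degenerate_of_form {Z : Set P3} (π : (Fin 4 → ℂ) →ₗ[ℂ] (Fin 3 → ℂ))
    (hπ : Function.Surjective π) {F : S} (hF : F.IsHomogeneous 1) (hF0 : F ≠ 0)
    (hv : F ∈ vanishingIdeal ℂ (π '' cone Z)) : ¬ Nondegenerate Z := by
  intro hnd
  apply hnd
  obtain ⟨l, rfl⟩ := hom_one_eq_lin hF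
  have hl : l ≠ 0 := by
    rintro rfl
    apply hF0
    simp [lin]
  let A : (Fin 4 → ℂ) →ₗ[ℂ] ℂ :=
    { toFun := fun x => l ⬝ᵥ π x
      map_add' := fun x y => by rw [map_add, dotProduct_add]
      map_smul' := fun t x => by rw [map_smul, dotProduct_smul, RingHom.id_apply] }
  have hA : A ≠ 0 := by
    intro h0
    apply hl
    ext k
    obtain ⟨x, hx⟩ := hπ (Pi.single k 1)
    have h1 : l ⬝ᵥ π x = 0 := LinearMap.congr_fun h0 x
    rwa [hx, dotProduct_single, mul_one] at h1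
  have hsurj : Function.Surjective A := LinearMap.surjective hA
  refine ⟨LinearMap.ker A, ?_, ?_⟩
  · have h1 := LinearMap.finrank_range_add_finrank_ker A
    rw [LinearMap.range_eq_top.2 hsurj, finrank_top] at h1
    simp only [Module.finrank_self, Module.finrank_fin_fun] at h1
    omega
  · intro z hz x hx
    rw [mem_vanishingIdeal_iff] at hv
    have h2 := hv (π x) ⟨x, ⟨z, hz, hx⟩, rfl⟩
    rwa [aeval_eq_eval, eval_lin] at h2

/-- there is no nondegenerate `(1,1)`-geproci set -/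
theorem no_one {Z : Set P3} (h : IsGeproci 1 1 Z) : ¬ Nondegenerate Z := by
  classical
  obtain ⟨hfin, _, _, d, Φ, hΦ, hΦ0, hgp⟩ := h
  obtain ⟨Φ', hΦ'0, hΦ'⟩ := exists_dehom hΦ hΦ0
  obtain ⟨q, hq⟩ : ∃ q, eval q Φ' ≠ 0 := by
    by_contra hcon
    push Not at hcon
    exact hΦ'0 (poly_ext fun x => by rw [hcon x, map_zero])
  rw [hΦ'] at hq
  obtain ⟨F, G, hF, hG, hI⟩ := hgp _ hq (prj q) (prj_surj q) (prj_ker q)
  by_cases hF0 : F = 0
  · by_cases hG0 : G = 0
    · exfalso
      rw [hF0, hG0] at hI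
      have hI' : vanishingIdeal ℂ (prj q '' cone Z) = ⊥ := by
        rw [hI]
        simp
      have : Fintype Z := hfin.fintype
      have hl : ∀ z : Z, ∃ l : Fin 3 → ℂ, l ≠ 0 ∧ l ⬝ᵥ (prj q z.1.rep) = 0 := by
        intro z
        obtain ⟨x, hx, hx2⟩ := exists_zero_off_line (f := lin (prj q z.1.rep)) (lin_hom _)
          one_ne_zero (0 : Fin 3 → ℂ)
        refine ⟨x, ?_, ?_⟩
        · rintro rfl
          exact hx (Submodule.zero_mem _)
        · rw [dotProduct_comm, ← eval_lin]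
          exact hx2
      choose l hl1 hl2 using hl
      have h1 : (∏ z : Z, lin (l z)) ∈ vanishingIdeal ℂ (prj q '' cone Z) := by
        rw [mem_vanishingIdeal_iff]
        rintro _ ⟨x, ⟨z, hz, hx⟩, rfl⟩
        rw [aeval_eq_eval, map_prod]
        refine Finset.prod_eq_zero (Finset.mem_univ (⟨z, hz⟩ : Z)) ?_
        rw [Projectivization.submodule_eq, Submodule.mem_span_singleton] at hx
        obtain ⟨t, rfl⟩ := hx
        have h2 := hl2 ⟨z, hz⟩
        rw [eval_lin, map_smul, dotProduct_smul, h2, smul_zero]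
      rw [hI', Ideal.mem_bot] at h1
      exact Finset.prod_ne_zero_iff.2 (fun z _ h0 => hl1 z (lin_eq_zero h0)) h1
    · exact degenerate_of_form (prj q) (prj_surj q) hG hG0
        (hI ▸ Ideal.subset_span (Or.inr rfl))
  · exact degenerate_of_form (prj q) (prj_surj q) hF hF0
      (hI ▸ Ideal.subset_span (Or.inl rfl))

/-- Every nondegenerate `(a,b)`-geproci set with `b ≥ 2a - 1` lies on `a` skew lines. -/
theorem skew_of_le {a b : ℕ} {Z : Set P3} (hZ : IsGeproci a b Z) (hnd : Nondegenerate Z)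
    (hab : 2 * a ≤ b + 1) : InSkewLines a Z := by
  rcases lt_or_ge a b with hlt | hge
  · exact main hZ hnd hab hlt
  · exfalso
    have h2 := hZ.2.1
    have h3 := hZ.2.2.1
    have ha : a = 1 := by omega
    have hb : b = 1 := by omega
    subst ha
    subst hb
    exact no_one hZ hnd

/-- For every `a`, every `b ∈ S(a)` satisfies `b ≤ 2a - 2`; in particular `S(a)` is finite. -/
theorem result (a : ℕ) : (∀ b ∈ SSet a, b + 2 ≤ 2 * a) ∧ (SSet a).Finite := by
  have h : ∀ b ∈ SSet a, b + 2 ≤ 2 * a := by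
    rintro b ⟨_, Z, hZ, hnt, hns⟩
    by_contra hcon
    exact hns (skew_of_le hZ hnt.1 (by omega))
  exact ⟨h, (Set.finite_Iic (2 * a)).subset fun b hb => by
    have := h b hb
    simp only [Set.mem_Iic]
    omega⟩

end Pool.Agent.Results.MP_7fd0c9_ag.GeprociLinear
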